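import Mathlib

/-!
# CR, K2: the window around one zero, from the Poisson kernel (Mathlib only)
-/

set_option autoImplicit false

namespace Pool.Agent.Helper41.CR

open Complex Filter Topology MeasureTheory Set Metric

theorem core_ineq (a b : ℂ) (C δ : ℝ) (hδ : 0 < δ) (h : ‖a - b‖ ≤ C) :
    ‖a‖ ^ 2 ≤ (1 + δ) * ‖b‖ ^ 2 + (1 + 1 / δ) * C ^ 2 := by
  have h1 : ‖a‖ ≤ ‖b‖ + C := by
    calc ‖a‖ = ‖b + (a - b)‖ := by rw [add_sub_cancel]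
      _ ≤ ‖b‖ + ‖a - b‖ := norm_add_le _ _
      _ ≤ _ := by linarith
  have h2 : ‖a‖ ^ 2 ≤ (‖b‖ + C) ^ 2 := pow_le_pow_left₀ (norm_nonneg _) h1 2
  have h3 : 2 * ‖b‖ * C ≤ δ * ‖b‖ ^ 2 + C ^ 2 / δ := by
    have h4 : 0 ≤ (δ * ‖b‖ - C) ^ 2 / δ := by positivity
    have e : (δ * ‖b‖ - C) ^ 2 / δ = δ * ‖b‖ ^ 2 + C ^ 2 / δ - 2 * ‖b‖ * C := by
      field_simp
      ring
    linarith
  calc ‖a‖ ^ 2 ≤ (‖b‖ + C) ^ 2 := h2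
    _ = ‖b‖ ^ 2 + 2 * ‖b‖ * C + C ^ 2 := by ring
    _ ≤ ‖b‖ ^ 2 + (δ * ‖b‖ ^ 2 + C ^ 2 / δ) + C ^ 2 := by linarith
    _ = _ := by ring

theorem int_le (f g : ℝ → ℝ) (x y A E : ℝ) (hxy : x ≤ y) (hf : ContinuousOn f (Icc x y))
    (hg : ContinuousOn g (Icc x y)) (h : ∀ τ ∈ Icc x y, f τ ≤ A * g τ + E) :
    (∫ τ in Icc x y, f τ) ≤ A * (∫ τ in Icc x y, g τ) + E * (y - x) := by
  have hfi : IntegrableOn f (Icc x y) := hf.integrableOn_Icc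
  have hgi : IntegrableOn g (Icc x y) := hg.integrableOn_Icc
  have hci : IntegrableOn (fun _ : ℝ => E) (Icc x y) := continuousOn_const.integrableOn_Icc
  have h1 : (∫ τ in Icc x y, f τ) ≤ ∫ τ in Icc x y, (A * g τ + E) :=
    setIntegral_mono_on hfi ((hgi.const_mul A).add hci) measurableSet_Icc h
  have h2 : (∫ τ in Icc x y, (A * g τ + E)) = A * (∫ τ in Icc x y, g τ) + E * (y - x) := by
    rw [integral_add (hgi.const_mul A) hci, integral_const_mul, setIntegral_const,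
      Real.volume_real_Icc_of_le hxy, smul_eq_mul, mul_comm (y - x) E]
  linarith

theorem norm_ge (σ τ : ℝ) : |τ| ≤ ‖(σ : ℂ) + (τ : ℂ) * I‖ := by
  have h := Complex.abs_im_le_norm ((σ : ℂ) + (τ : ℂ) * I)
  simpa using h

theorem ne_zero_of_pos {σ : ℝ} (hσ : 0 < σ) (τ γ : ℝ) :
    (σ : ℂ) + (τ : ℂ) * I - (γ : ℂ) * I ≠ 0 := by
  intro h
  have h1 := congrArg Complex.re h
  simp at h1
  exact hσ.ne' h1

/-- the window, from the Poisson kernel -/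
theorem window_core (D : ℂ → ℂ) (γ : ℝ) (m : ℕ) (ε C σ0 : ℝ) (hε : 0 < ε) (hεγ : ε < |γ|)
    (hσ0 : 0 < σ0)
    (hD : ∀ σ τ : ℝ, 0 < σ → σ ≤ σ0 → τ ∈ Icc (γ - ε) (γ + ε) →
      ‖D ((σ : ℂ) + (τ : ℂ) * I) - (m : ℂ) / ((σ : ℂ) + (τ : ℂ) * I - (γ : ℂ) * I)‖ ≤ C)
    (hc : ContinuousOn D {w : ℂ | 0 < w.re})
    (hP : Tendsto (fun σ : ℝ => σ * ∫ τ in Icc (γ - ε) (γ + ε),
      (‖(σ : ℂ) + (τ : ℂ) * I - (γ : ℂ) * I‖ ^ 2)⁻¹ * (‖(σ : ℂ) + (τ : ℂ) * I‖ ^ 2)⁻¹) (𝓝[>] 0)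
      (𝓝 (Real.pi / γ ^ 2))) :
    Tendsto (fun σ : ℝ => σ * ∫ τ in Icc (γ - ε) (γ + ε),
        ‖D ((σ : ℂ) + (τ : ℂ) * I)‖ ^ 2 * (‖(σ : ℂ) + (τ : ℂ) * I‖ ^ 2)⁻¹) (𝓝[>] 0)
        (𝓝 ((m : ℝ) ^ 2 * (Real.pi / γ ^ 2))) := by
  set P : ℝ → ℝ := fun σ => σ * ∫ τ in Icc (γ - ε) (γ + ε),
      (‖(σ : ℂ) + (τ : ℂ) * I - (γ : ℂ) * I‖ ^ 2)⁻¹ * (‖(σ : ℂ) + (τ : ℂ) * I‖ ^ 2)⁻¹ with hPd
  set F : ℝ → ℝ := fun σ => σ * ∫ τ in Icc (γ - ε) (γ + ε),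
        ‖D ((σ : ℂ) + (τ : ℂ) * I)‖ ^ 2 * (‖(σ : ℂ) + (τ : ℂ) * I‖ ^ 2)⁻¹ with hFd
  set K : ℝ := ((|γ| - ε) ^ 2)⁻¹ with hK
  have hK0 : 0 ≤ K := by positivity
  have hKb : ∀ σ τ : ℝ, τ ∈ Icc (γ - ε) (γ + ε) → (‖(σ : ℂ) + (τ : ℂ) * I‖ ^ 2)⁻¹ ≤ K := by
    intro σ τ hτ
    have h1 : |γ| - ε ≤ |τ| := by
      have h2 : |γ - τ| ≤ ε := by
        rw [abs_le]; constructor <;> linarith [hτ.1, hτ.2]
      have h3 : |γ| - |τ| ≤ |γ - τ| := abs_sub_abs_le_abs_sub γ τ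
      linarith
    have h2 : |γ| - ε ≤ ‖(σ : ℂ) + (τ : ℂ) * I‖ := h1.trans (norm_ge σ τ)
    have h3 : 0 < |γ| - ε := by linarith
    rw [hK]
    exact inv_anti₀ (by positivity) (pow_le_pow_left₀ h3.le h2 2)
  have hpos : ∀ σ : ℝ, 0 < σ → ∀ τ : ℝ, (σ : ℂ) + (τ : ℂ) * I ≠ 0 := by
    intro σ hσ τ h
    have h1 := congrArg Complex.re h
    simp at h1
    exact hσ.ne' h1
  have hline : ∀ σ : ℝ, Continuous fun τ : ℝ => (σ : ℂ) + (τ : ℂ) * I := fun σ => by fun_prop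
  -- continuity
  have hcP : ∀ σ : ℝ, 0 < σ → ContinuousOn (fun τ : ℝ =>
      (‖(σ : ℂ) + (τ : ℂ) * I - (γ : ℂ) * I‖ ^ 2)⁻¹ * (‖(σ : ℂ) + (τ : ℂ) * I‖ ^ 2)⁻¹)
      (Icc (γ - ε) (γ + ε)) := by
    intro σ hσ
    apply Continuous.continuousOn
    refine Continuous.mul (Continuous.inv₀ (by fun_prop) fun τ => ?_)
      (Continuous.inv₀ (by fun_prop) fun τ => ?_)
    · exact pow_ne_zero 2 (norm_ne_zero_iff.2 (ne_zero_of_pos hσ τ γ))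
    · exact pow_ne_zero 2 (norm_ne_zero_iff.2 (hpos σ hσ τ))
  have hcF : ∀ σ : ℝ, 0 < σ → ContinuousOn (fun τ : ℝ =>
      ‖D ((σ : ℂ) + (τ : ℂ) * I)‖ ^ 2 * (‖(σ : ℂ) + (τ : ℂ) * I‖ ^ 2)⁻¹)
      (Icc (γ - ε) (γ + ε)) := by
    intro σ hσ
    have h1 : ContinuousOn (fun τ : ℝ => D ((σ : ℂ) + (τ : ℂ) * I)) (Icc (γ - ε) (γ + ε)) :=
      hc.comp (hline σ).continuousOn fun τ _ => by
        show 0 < ((σ : ℂ) + (τ : ℂ) * I).re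
        simpa using hσ
    refine (h1.norm.pow 2).mul (Continuous.continuousOn (Continuous.inv₀ (by fun_prop) fun τ => ?_))
    exact pow_ne_zero 2 (norm_ne_zero_iff.2 (hpos σ hσ τ))
  -- the two inequalities
  have hm : ∀ σ τ : ℝ, ‖(m : ℂ) / ((σ : ℂ) + (τ : ℂ) * I - (γ : ℂ) * I)‖ ^ 2 =
      (m : ℝ) ^ 2 * (‖(σ : ℂ) + (τ : ℂ) * I - (γ : ℂ) * I‖ ^ 2)⁻¹ := by
    intro σ τ
    rw [norm_div, Complex.norm_natCast, div_pow, div_eq_mul_inv]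
  have hup : ∀ δ : ℝ, 0 < δ → ∀ σ : ℝ, 0 < σ → σ ≤ σ0 →
      F σ ≤ (1 + δ) * (m : ℝ) ^ 2 * P σ + σ * ((1 + 1 / δ) * C ^ 2 * K * (2 * ε)) := by
    intro δ hδ σ hσ hσ'
    have h1 := int_le _ _ (γ - ε) (γ + ε) ((1 + δ) * (m : ℝ) ^ 2) ((1 + 1 / δ) * C ^ 2 * K)
      (by linarith) (hcF σ hσ) (hcP σ hσ) (by
        intro τ hτ
        have h2 := core_ineq _ _ C δ hδ (hD σ τ hσ hσ' hτ)
        rw [hm] at h2
        have h3 : 0 ≤ (‖(σ : ℂ) + (τ : ℂ) * I‖ ^ 2)⁻¹ := by positivity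
        have h4 := mul_le_mul_of_nonneg_right h2 h3
        have h5 : (1 + 1 / δ) * C ^ 2 * (‖(σ : ℂ) + (τ : ℂ) * I‖ ^ 2)⁻¹ ≤
            (1 + 1 / δ) * C ^ 2 * K :=
          mul_le_mul_of_nonneg_left (hKb σ τ hτ) (by positivity)
        refine h4.trans ?_
        rw [add_mul]
        refine add_le_add (le_of_eq (by ring)) h5)
    have h2 := mul_le_mul_of_nonneg_left h1 hσ.le
    refine h2.trans (le_of_eq ?_)
    rw [hPd]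
    ring
  have hlo : ∀ δ : ℝ, 0 < δ → ∀ σ : ℝ, 0 < σ → σ ≤ σ0 →
      (m : ℝ) ^ 2 * P σ ≤ (1 + δ) * F σ + σ * ((1 + 1 / δ) * C ^ 2 * K * (2 * ε)) := by
    intro δ hδ σ hσ hσ'
    have h1 := int_le (fun τ : ℝ => (m : ℝ) ^ 2 *
        ((‖(σ : ℂ) + (τ : ℂ) * I - (γ : ℂ) * I‖ ^ 2)⁻¹ * (‖(σ : ℂ) + (τ : ℂ) * I‖ ^ 2)⁻¹)) _
      (γ - ε) (γ + ε) (1 + δ) ((1 + 1 / δ) * C ^ 2 * K)
      (by linarith) (continuousOn_const.mul (hcP σ hσ)) (hcF σ hσ) (by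
        intro τ hτ
        have h2 := core_ineq _ _ C δ hδ (by rw [norm_sub_rev]; exact hD σ τ hσ hσ' hτ)
        rw [hm] at h2
        have h3 : 0 ≤ (‖(σ : ℂ) + (τ : ℂ) * I‖ ^ 2)⁻¹ := by positivity
        have h4 := mul_le_mul_of_nonneg_right h2 h3
        have h5 : (1 + 1 / δ) * C ^ 2 * (‖(σ : ℂ) + (τ : ℂ) * I‖ ^ 2)⁻¹ ≤
            (1 + 1 / δ) * C ^ 2 * K :=
          mul_le_mul_of_nonneg_left (hKb σ τ hτ) (by positivity)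
        rw [← mul_assoc]
        refine h4.trans ?_
        rw [add_mul]
        refine add_le_add (le_of_eq (by ring)) h5)
    have h2 := mul_le_mul_of_nonneg_left h1 hσ.le
    rw [integral_const_mul] at h2
    have h4 : (m : ℝ) ^ 2 * P σ = σ * ((m : ℝ) ^ 2 * ∫ τ in Icc (γ - ε) (γ + ε),
        (‖(σ : ℂ) + (τ : ℂ) * I - (γ : ℂ) * I‖ ^ 2)⁻¹ * (‖(σ : ℂ) + (τ : ℂ) * I‖ ^ 2)⁻¹) := by
      rw [hPd]
      ring
    rw [h4]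
    refine h2.trans (le_of_eq ?_)
    rw [hFd]
    ring
  have hs0 : ∀ E : ℝ, Tendsto (fun σ : ℝ => σ * E) (𝓝[>] 0) (𝓝 0) := by
    intro E
    have h1 : Tendsto (fun σ : ℝ => σ * E) (𝓝 0) (𝓝 (0 * E)) :=
      (continuous_id.mul continuous_const).tendsto 0
    rw [zero_mul] at h1
    exact h1.mono_left nhdsWithin_le_nhds
  have hev : ∀ᶠ σ : ℝ in 𝓝[>] 0, 0 < σ ∧ σ ≤ σ0 := by
    filter_upwards [Ioc_mem_nhdsGT hσ0] with σ hσ using ⟨hσ.1, hσ.2⟩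
  set V : ℝ := (m : ℝ) ^ 2 * (Real.pi / γ ^ 2) with hV
  rw [tendsto_order]
  constructor
  · intro a ha
    -- choose `δ`
    obtain ⟨δ, hδ, hδa⟩ : ∃ δ : ℝ, 0 < δ ∧ a * (1 + δ) < V := by
      have h1 : Tendsto (fun δ : ℝ => a * (1 + δ)) (𝓝[>] 0) (𝓝 (a * (1 + 0))) :=
        ((continuous_const.mul (continuous_const.add continuous_id)).tendsto 0).mono_left
          nhdsWithin_le_nhds
      rw [add_zero, mul_one] at h1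
      have h2 := (h1.eventually (gt_mem_nhds ha)).and self_mem_nhdsWithin
      obtain ⟨δ, h3, h4⟩ := h2.exists
      exact ⟨δ, h4, h3⟩
    have h1 : Tendsto (fun σ : ℝ => (m : ℝ) ^ 2 * P σ -
        σ * ((1 + 1 / δ) * C ^ 2 * K * (2 * ε))) (𝓝[>] 0) (𝓝 (V - 0)) :=
      (hP.const_mul _).sub (hs0 _)
    rw [sub_zero] at h1
    filter_upwards [h1.eventually (lt_mem_nhds hδa), hev] with σ h2 h3
    have h4 := hlo δ hδ σ h3.1 h3.2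
    have h5 : a * (1 + δ) < (1 + δ) * F σ := by linarith
    rw [mul_comm] at h5
    exact lt_of_mul_lt_mul_left h5 (by positivity)
  · intro b hb
    obtain ⟨δ, hδ, hδb⟩ : ∃ δ : ℝ, 0 < δ ∧ (1 + δ) * V < b := by
      have h1 : Tendsto (fun δ : ℝ => (1 + δ) * V) (𝓝[>] 0) (𝓝 ((1 + 0) * V)) :=
        (((continuous_const.add continuous_id).mul continuous_const).tendsto 0).mono_left
          nhdsWithin_le_nhds
      rw [add_zero, one_mul] at h1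
      have h2 := (h1.eventually (gt_mem_nhds hb)).and self_mem_nhdsWithin
      obtain ⟨δ, h3, h4⟩ := h2.exists
      exact ⟨δ, h4, h3⟩
    have h1 : Tendsto (fun σ : ℝ => (1 + δ) * (m : ℝ) ^ 2 * P σ +
        σ * ((1 + 1 / δ) * C ^ 2 * K * (2 * ε))) (𝓝[>] 0)
        (𝓝 ((1 + δ) * (m : ℝ) ^ 2 * (Real.pi / γ ^ 2) + 0)) :=
      (hP.const_mul _).add (hs0 _)
    rw [add_zero, show (1 + δ) * (m : ℝ) ^ 2 * (Real.pi / γ ^ 2) = (1 + δ) * V by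
      rw [hV, mul_assoc]] at h1
    filter_upwards [h1.eventually (gt_mem_nhds hδb), hev] with σ h2 h3
    exact (hup δ hδ σ h3.1 h3.2).trans_lt h2

end Pool.Agent.Helper41.CR
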