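import Mathlib

/-!
# CR, K2: the logarithmic derivative near one zero (Mathlib only)
-/

set_option autoImplicit false

namespace Pool.Agent.Helper41.CR

open Complex Filter Topology MeasureTheory Set Metric

theorem log_deriv_near (L g G : ℂ → ℂ) (z : ℂ) (m : ℕ)
    (hL : DifferentiableOn ℂ L {w : ℂ | 0 < w.re}) (hexp : ∀ w : ℂ, 0 < w.re → cexp (L w) = G w)
    (hg : AnalyticAt ℂ g z) (hg0 : g z ≠ 0) (hG : ∀ᶠ w in 𝓝 z, G w = (w - z) ^ m * g w) :
    ∃ r C : ℝ, 0 < r ∧ 0 ≤ C ∧ ∀ w : ℂ, 0 < w.re → ‖w - z‖ < r → w ≠ z →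
      ‖deriv L w - (m : ℂ) / (w - z)‖ ≤ C := by
  have hcont : ContinuousAt (fun w => deriv g w / g w) z :=
    hg.deriv.continuousAt.div hg.continuousAt hg0
  have h1 : ∀ᶠ w in 𝓝 z, ‖deriv g w / g w‖ < ‖deriv g z / g z‖ + 1 :=
    hcont.norm.eventually (gt_mem_nhds (lt_add_one _))
  have h2 : ∀ᶠ w in 𝓝 z, g w ≠ 0 := hg.continuousAt.eventually_ne hg0
  have h3 := ((h1.and h2).and (hg.eventually_analyticAt.and hG.eventually_nhds))
  obtain ⟨r, hr, hr'⟩ := Metric.eventually_nhds_iff.1 h3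
  refine ⟨r, ‖deriv g z / g z‖ + 1, hr, by positivity, fun w hw hwz hne => ?_⟩
  obtain ⟨⟨hb, hgw⟩, hgan, hGw⟩ := hr' (by rw [dist_eq_norm]; exact hwz)
  have hopen : IsOpen {w : ℂ | 0 < w.re} := isOpen_lt continuous_const Complex.continuous_re
  have hLd : HasDerivAt L (deriv L w) w :=
    (hL.differentiableAt (hopen.mem_nhds hw)).hasDerivAt
  have h4 : HasDerivAt (fun w => cexp (L w)) (cexp (L w) * deriv L w) w := hLd.cexp
  have h5 : (fun w => cexp (L w)) =ᶠ[𝓝 w] fun w => (w - z) ^ m * g w := by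
    filter_upwards [hopen.mem_nhds hw, hGw] with u hu hu'
    rw [hexp u hu, hu']
  have h6 : HasDerivAt (fun w => (w - z) ^ m * g w)
      ((m : ℂ) * (w - z) ^ (m - 1) * 1 * g w + (w - z) ^ m * deriv g w) w :=
    (((hasDerivAt_id w).sub_const z).pow m).mul hgan.differentiableAt.hasDerivAt
  have h7 := (h4.congr_of_eventuallyEq h5.symm).unique h6
  have h8 : cexp (L w) = (w - z) ^ m * g w := h5.eq_of_nhds
  rw [h8] at h7
  have hwz0 : w - z ≠ 0 := sub_ne_zero.2 hne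
  have h9 : deriv L w - (m : ℂ) / (w - z) = deriv g w / g w := by
    have h10 : (m : ℂ) * (w - z) ^ (m - 1) * (w - z) = (m : ℂ) * (w - z) ^ m := by
      rcases Nat.eq_zero_or_pos m with h | h
      · rw [h]; simp
      · rw [mul_assoc, ← pow_succ, Nat.sub_add_cancel h]
    have hp : (w - z) ^ m ≠ 0 := pow_ne_zero m hwz0
    rw [sub_eq_iff_eq_add, div_add_div _ _ hgw hwz0, eq_div_iff (mul_ne_zero hgw hwz0)]
    apply mul_left_cancel₀ hp
    linear_combination (w - z) * h7 + g w * h10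
  rw [h9]
  exact hb.le

end Pool.Agent.Helper41.CR
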