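import Pool.Agent.Helper41.CR.K2core
import Pool.Agent.Helper41.CR.K2log

/-!
# CR, K2: small windows around one zero, from the Poisson kernel
-/

set_option autoImplicit false

namespace Pool.Agent.Helper41.CR

open Complex Filter Topology MeasureTheory Set Metric

theorem window_gen (L g G : ℂ → ℂ) (γ : ℝ) (hγ : γ ≠ 0) (m : ℕ)
    (hL : DifferentiableOn ℂ L {w : ℂ | 0 < w.re}) (hexp : ∀ w : ℂ, 0 < w.re → cexp (L w) = G w)
    (hg : AnalyticAt ℂ g (γ * I)) (hg0 : g (γ * I) ≠ 0)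
    (hG : ∀ᶠ w in 𝓝 (γ * I : ℂ), G w = (w - γ * I) ^ m * g w)
    (hP : ∀ ε : ℝ, 0 < ε → ε < |γ| → Tendsto (fun σ : ℝ => σ * ∫ τ in Icc (γ - ε) (γ + ε),
      (‖(σ : ℂ) + (τ : ℂ) * I - (γ : ℂ) * I‖ ^ 2)⁻¹ * (‖(σ : ℂ) + (τ : ℂ) * I‖ ^ 2)⁻¹) (𝓝[>] 0)
      (𝓝 (Real.pi / γ ^ 2))) :
    ∃ ε0 : ℝ, 0 < ε0 ∧ ∀ ε : ℝ, 0 < ε → ε ≤ ε0 →
      Tendsto (fun σ : ℝ => σ * ∫ τ in Icc (γ - ε) (γ + ε),
        ‖deriv L ((σ : ℂ) + (τ : ℂ) * I)‖ ^ 2 * (‖(σ : ℂ) + (τ : ℂ) * I‖ ^ 2)⁻¹) (𝓝[>] 0)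
        (𝓝 ((m : ℝ) ^ 2 * (Real.pi / γ ^ 2))) := by
  obtain ⟨r, C, hr, _, hb⟩ := log_deriv_near L g G (γ * I) m hL hexp hg hg0 hG
  have hγ' : 0 < |γ| := abs_pos.2 hγ
  refine ⟨min (r / 3) (|γ| / 2), lt_min (by positivity) (by positivity), fun ε hε hε0 => ?_⟩
  have h1 : ε ≤ r / 3 := hε0.trans (min_le_left _ _)
  have h2 : ε < |γ| := (hε0.trans (min_le_right _ _)).trans_lt (by linarith)
  have hopen : IsOpen {w : ℂ | 0 < w.re} := isOpen_lt continuous_const Complex.continuous_re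
  refine window_core (deriv L) γ m ε C (r / 3) hε h2 (by positivity) ?_
    (hL.deriv hopen).continuousOn (hP ε hε h2)
  intro σ τ hσ hσ' hτ
  refine hb _ (by simpa using hσ) ?_ ?_
  · have e1 : (σ : ℂ) + (τ : ℂ) * I - (γ : ℂ) * I = (σ : ℂ) + ((τ - γ : ℝ) : ℂ) * I := by
      push_cast
      ring
    rw [e1]
    have h3 : ‖(σ : ℂ) + ((τ - γ : ℝ) : ℂ) * I‖ ≤ |σ| + |τ - γ| := by
      refine (norm_add_le _ _).trans (le_of_eq ?_)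
      rw [norm_mul, Complex.norm_I, mul_one, Complex.norm_real, Complex.norm_real,
        Real.norm_eq_abs, Real.norm_eq_abs]
    have h4 : |τ - γ| ≤ ε := by
      rw [abs_le]
      constructor <;> linarith [hτ.1, hτ.2]
    have h5 : |σ| = σ := abs_of_pos hσ
    rw [h5] at h3
    linarith
  · intro h
    exact ne_zero_of_pos hσ τ γ (sub_eq_zero.2 h)

end Pool.Agent.Helper41.CR
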